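import Pool.Agent.Q195.PG2

set_option autoImplicit false

open Pool.Agent.Q195.PG

namespace Pool.Agent.Results.MP_6095cf_an.NotPartiallyGreedy

/-- A sequence `n` with arbitrarily large gaps and a Schauder basis that is `n`-quasi-greedy and
`n`-order-conservative but not `n`-partially greedy. -/
theorem result : ∀ (𝕜 : Type) [RCLike 𝕜], ∃ n : ℕ → ℕ, StrictMono n ∧ 0 < n 0 ∧
    (∀ l : ℕ, ∃ k, l * n k < n (k + 1)) ∧
    ∃ (X : Type) (_ : NormedAddCommGroup X) (_ : NormedSpace 𝕜 X) (_ : CompleteSpace X)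
      (x : ℕ → X) (xs : ℕ → X →L[𝕜] 𝕜),
      IsSchauder x xs ∧ QG n x xs ∧ OC n x ∧ ¬ PartGreedy n x xs := by
  intro 𝕜 _
  exact ⟨nn, nn_strictMono, by decide, gaps, main⟩

end Pool.Agent.Results.MP_6095cf_an.NotPartiallyGreedy
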